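import Mathlib
import Pool.Agent.Run7.h100.AF.Assoc

/-!
The exponent of the discriminant needed to extend the associated form is one,
for every number of variables and every degree.
-/

open MvPolynomial

namespace Pool.Agent.Results.MP_2a8a61_ag.ExponentOne

/-- exponents of the monomials of degree `D` in `z_1, ..., z_n` -/
abbrev Mon (n D : ℕ) : Type := Run7.h100.AF.Mon n D

/-- the form with coefficient vector `b`, that is `∑ b_μ z^μ` over the monomials of degree `D` -/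
noncomputable abbrev form {n D : ℕ} (b : Mon n D → ℂ) : MvPolynomial (Fin n) ℂ :=
  Run7.h100.AF.form b

/-- the Hessian determinant `det (∂_i ∂_j f)` -/
noncomputable abbrev hess {n : ℕ} (f : MvPolynomial (Fin n) ℂ) : MvPolynomial (Fin n) ℂ :=
  Run7.h100.AF.hess f

/-- `Δ` is the discriminant of forms of degree `d` in `n` variables: an irreducible polynomial in
the coefficients, whose zeros are exactly the forms with a critical point other than `0` -/
def IsDiscriminant (n d : ℕ) (Δ : MvPolynomial (Mon n d) ℂ) : Prop :=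
  Irreducible Δ ∧ ∀ a : Mon n d → ℂ, eval a Δ = 0 ↔
    ∃ z : Fin n → ℂ, z ≠ 0 ∧ ∀ i, eval z (pderiv i (form a)) = 0

/-- `c` is the value at `w` of the associated form of `f`: in `ℂ[[z]]`, modulo the ideal generated
by the derivatives `∂_i f`, one has `(w_1 z_1 + ... + w_n z_n) ^ (n (d - 2)) ≡ c Hess(f)` -/
def IsAssoc (n d : ℕ) (f : MvPolynomial (Fin n) ℂ) (w : Fin n → ℂ) (c : ℂ) : Prop :=
  (((∑ i, C (w i) * X i) ^ (n * (d - 2)) - C c * hess f : MvPolynomial (Fin n) ℂ) :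
    MvPowerSeries (Fin n) ℂ) ∈ Ideal.span (Set.range fun i =>
      ((pderiv i f : MvPolynomial (Fin n) ℂ) : MvPowerSeries (Fin n) ℂ))

/-- `Δ ^ p Φ` extends to a morphism from all forms of degree `d` to forms of degree `n (d - 2)` -/
def Extends (n d p : ℕ) (Δ : MvPolynomial (Mon n d) ℂ) : Prop :=
  ∃ P : Mon n (n * (d - 2)) → MvPolynomial (Mon n d) ℂ,
    ∀ a : Mon n d → ℂ, eval a Δ ≠ 0 → ∀ (w : Fin n → ℂ) (c : ℂ), IsAssoc n d (form a) w c →
      eval w (form fun μ => eval a (P μ)) = eval a Δ ^ p * c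

theorem result : ∀ n d : ℕ, 2 ≤ n → 3 ≤ d →
    (∃ Δ, IsDiscriminant n d Δ) ∧
    ∀ Δ, IsDiscriminant n d Δ →
      (∀ a : Mon n d → ℂ, eval a Δ ≠ 0 → ∀ w : Fin n → ℂ, ∃! c : ℂ, IsAssoc n d (form a) w c) ∧
      (∀ p : ℕ, Extends n d p Δ ↔ 1 ≤ p) ∧
      IsLeast {p : ℕ | 0 < p ∧ Extends n d p Δ} 1 := by
  intro n d hn hd
  have hnd : ∀ a : Mon n d → ℂ, ¬ Run7.h100.AF.Nondeg (form a) ↔
      ∃ z : Fin n → ℂ, z ≠ 0 ∧ ∀ i, eval z (pderiv i (form a)) = 0 := by
    intro a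
    unfold Run7.h100.AF.Nondeg
    push Not
    exact ⟨fun ⟨z, h1, h2⟩ => ⟨z, h2, h1⟩, fun ⟨z, h1, h2⟩ => ⟨z, h2, h1⟩⟩
  have hdisc : ∀ Δ : MvPolynomial (Mon n d) ℂ, IsDiscriminant n d Δ ↔ Run7.h100.AF.IsDisc n d Δ := by
    intro Δ
    unfold IsDiscriminant Run7.h100.AF.IsDisc
    exact and_congr Iff.rfl (forall_congr' fun a => by rw [← hnd a])
  refine ⟨?_, fun Δ hΔ0 => ?_⟩
  · obtain ⟨Δ, hΔ⟩ := Run7.h100.AF.exists_disc hn hd
    exact ⟨Δ, (hdisc Δ).mpr hΔ⟩
  have hΔ := (hdisc Δ).mp hΔ0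
  have hne : ∀ a : Mon n d → ℂ, eval a Δ ≠ 0 ↔ Run7.h100.AF.Nondeg (form a) := by
    intro a
    rw [Ne, hΔ.2 a, not_not]
  have hiff : ∀ p : ℕ, Extends n d p Δ ↔ 1 ≤ p := by
    intro p
    constructor
    · intro h
      by_contra hp
      have hp0 : p = 0 := by omega
      subst hp0
      obtain ⟨P, hP⟩ := h
      apply Run7.h100.AF.not_extends_zero hn hd
      refine ⟨P, fun a ha w c hc => ?_⟩
      have h1 := hP a ((hne a).mpr ha) w c hc
      rwa [pow_zero, one_mul] at h1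
    · intro hp
      obtain ⟨P, hP⟩ := Run7.h100.AF.extends_one hn hd hΔ
      refine ⟨fun μ => Δ ^ (p - 1) * P μ, fun a ha w c hc => ?_⟩
      have h1 := hP a ((hne a).mp ha) w c hc
      have h2 : eval w (form fun μ => eval a (Δ ^ (p - 1) * P μ)) =
          eval a Δ ^ (p - 1) * eval w (form fun μ => eval a (P μ)) := by
        have h3 : (fun μ => eval a (Δ ^ (p - 1) * P μ)) =
            eval a Δ ^ (p - 1) • fun μ => eval a (P μ) := by
          ext μ
          simp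
        rw [h3]
        change eval w (Run7.h100.AF.form _) = _
        rw [Run7.h100.AF.form_smul, map_mul, eval_C]
      rw [h2, h1, ← mul_assoc, ← pow_succ, Nat.sub_add_cancel hp]
  refine ⟨fun a ha w => ?_, hiff, ?_⟩
  · have ha' := (hne a).mp ha
    obtain ⟨c, hc⟩ := Run7.h100.AF.exists_coeff hn hd a ha'
      (fun μ : Mon n (n * (d - 2)) => (μ.1.multinomial : ℂ) * ∏ i, w i ^ μ.1 i)
    refine ⟨c, (Run7.h100.AF.isAssocVal_iff hn hd a w c).mpr hc, fun c' hc' => ?_⟩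
    exact Run7.h100.AF.coeff_unique hn hd a ha'
      ((Run7.h100.AF.isAssocVal_iff hn hd a w c').mp hc') hc
  · refine ⟨⟨one_pos, (hiff 1).mpr le_rfl⟩, ?_⟩
    rintro p ⟨hp, _⟩
    exact hp

end Pool.Agent.Results.MP_2a8a61_ag.ExponentOne
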